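import Mathlib
import Pool.Agent.Lib.MP_aceab8_an.Defs
import Pool.Agent.Lib.MP_aceab8_an.Main

set_option autoImplicit false

namespace Pool.Agent.Results.MP_aceab8_an.EvenBounces

open Pool.Agent.Lib.MP_aceab8_an

/-- Every periodic billiard orbit in a regular tetrahedron has an even number of bounces: if a
billiard trajectory returns to its initial point with its initial velocity after `n` bounces, then
`n` is even. In particular the least such `n ≥ 1`, which is the number of bounces of the periodic
orbit, is even. -/
theorem result (p : Fin 4 → Space) (hp : IsRegularTetrahedron p) (τ : Trajectory p) (n : ℕ)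
    (hn : τ.ReturnsAfter n) : Even n :=
  even_bounces hp τ n hn

end Pool.Agent.Results.MP_aceab8_an.EvenBounces
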